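import Pool.Agent.K9h35.SG.Dual

/-!
# The Singer conjecture and the homology of half-spaces

Let `G` be a Poincaré duality group of dimension `n` which acts by order preserving maps on a totally
ordered set `X`, with orbits unbounded above (for example `X = G` for a left-ordered group, or the
real line with a minimal action, or with the translations given by a nonzero homomorphism to the
real numbers). Let `C` be a free resolution of the trivial module `ℂ` (in the degrees up to `m`),
whose basis elements `e` have levels `w e ∈ X`, such that the levels of the terms of the boundary of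
`e` are at least `w e` (the level of `g e` is `g w e`). For example `C` is the chain complex of a free
cocompact `m`-connected `G`-complex `Y` with an equivariant map `Y⁰ → X`, the level of a cell is the
minimum over the levels of its vertices. For `x ∈ X` let `C_{≥x}` and `C_{>x}` be the subcomplexes of
the chains with levels `≥ x` and `> x`, the closed and the open half-space.

The theorem: the `L²`-Betti numbers of `G` in the degrees `k + 1` and `n - (k + 1)` are at most the
number of generators of the module over the group algebra which is the direct sum over all `x` of the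
kernels of the maps `H_k(C_{>x}) → H_k(C_{≥x})` of the (reduced) homology of the half-spaces, that is,
the classes of cycles in the open half-space which are killed when the cells of level `x` are added.
This holds for every `k` if `G` acts freely on `X` (then `G` is left-orderable), and in general if the
closed half-spaces are acyclic in the degrees up to `k` and these kernels vanish in the degrees below
`k`. In particular the Singer conjecture holds for `G` if, in the degrees `k` with `2 (k + 1) < n`,
these kernels vanish and the action is free or the closed half-spaces are acyclic. The kernels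
vanish in degree `k` if the open half-spaces are acyclic in degree `k`, or if, for all vertices, the
ascending link is acyclic in degree `k` (`X = G`).

The starting hand-in `ConnectedPositiveCones` of this page treats `X = G`, `k = 0` and the dimensions
`n ≤ 4` (connected positive cones); its definitions are used for the duality complex `D` and the
`L²`-Betti numbers. The level inequality for ordered `G`-sets is in the starting file
`Pool.Agent.N309.LO.Level`. New are the higher degrees, so the dimensions `n ≥ 5`, the half-spaces for
actions with infinite stabilisers, and the decoupling of `C` and `D`.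

Outline. The cocycles are in the kernel of the matrix of all cycles of `C` with given lowest terms; by
the level inequality the dimension of this kernel is at most that for the lowest terms, the level
preserving part. The level preserving part `B` of the boundary operator has a level preserving
generalised inverse `S`, `B S B = B`, if the action is free (linear algebra) or the closed
half-spaces are acyclic (a contraction), so the elements `e - e B S` are cycles of the graded complex.
They are the lowest terms of cycles of `C`, up to the generators. So the cocycles have at most the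
dimension of the closure of the range of `B` plus the number of generators, and the level inequality
for the boundary operator itself gives the lower bound for the coboundaries. The high degrees: the
dual complex is a resolution of a one-dimensional module, and `L²`-Betti numbers computed with it are
the same as those computed with a twist of `C` by a character, which does not change the half-spaces.
-/

set_option autoImplicit false

open scoped Matrix

universe u v

namespace Pool.Agent.Results.MP_984acc_gt.HalfSpaces

open Pool.Agent.Results.MP_984acc_gt.ConnectedPositiveCones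

/-- The group acts on the totally ordered set `X` by order preserving maps, and no orbit is bounded
above. -/
structure IsUnboundedAction (G : Type u) (X : Type v) [Group G] [MulAction G X] [LinearOrder X] :
    Prop where
  mono : ∀ (g : G) (a b : X), a ≤ b → g • a ≤ g • b
  unbounded : ∀ a b : X, ∃ g : G, a < g • b

/-- The action is free. -/
def IsFreeAction (G : Type u) (X : Type v) [Group G] [MulAction G X] : Prop :=
  ∀ (g : G) (x : X), g • x = x → g = 1

section
variable {G : Type u} [Group G] {X : Type v} [MulAction G X] [LinearOrder X]

/-- The levels of the terms of the chain `c` are in `S`: the basis element number `j` has the level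
`w j`, and the level of its translate by `g` is `g • w j`. -/
def LevelsIn {m : ℕ} (w : Fin m → X) (S : Set X) (c : Fin m → MonoidAlgebra ℂ G) : Prop :=
  ∀ j g, (c j).coeff g ≠ 0 → g • w j ∈ S

/-- A complex of finitely generated free modules with augmentation to the trivial module, exact in
the degrees up to `m`, with levels: the terms of the boundary of a basis element have at least the
level of the basis element. -/
structure IsLeveledResolution {r : ℕ → ℕ} (C : Matrices G r) (w : ∀ i, Fin (r i) → X) (m : ℕ) :
    Prop where
  comp : ∀ i, C (i + 1) * C i = 0
  augmentation : HasAugmentation C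
  exact : ∀ i < m, IsExactAt C i
  level : ∀ i l, LevelsIn (w i) (Set.Ici (w (i + 1) l)) (C i l)

/-- The closed half-spaces are acyclic in degree `i`: every boundary with levels at least `x` is the
boundary of a chain with levels at least `x`. -/
def ClosedAcyclic {r : ℕ → ℕ} (C : Matrices G r) (w : ∀ i, Fin (r i) → X) (i : ℕ) : Prop :=
  ∀ (x : X) (c : Fin (r i) → MonoidAlgebra ℂ G), LevelsIn (w i) (Set.Ici x) c →
    (∃ y, y ᵥ* C i = c) → ∃ y, LevelsIn (w (i + 1)) (Set.Ici x) y ∧ y ᵥ* C i = c

/-- The direct sum over all `x` of the kernels of the maps `H_i(C_{>x}) → H_i(C_{≥x})` is generated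
as a module over the group algebra by `t` elements of such kernels, the classes of the boundaries of
the chains `e s` with levels at least `x s`: if `b` is a chain with levels at least `z` whose boundary
has levels larger than `z`, then the boundary of `b - ∑ α s e s` is the boundary of a chain with
levels larger than `z`, for some `α s` supported on the `g` with `g • x s = z`. -/
def KernelsGeneratedBy {r : ℕ → ℕ} (C : Matrices G r) (w : ∀ i, Fin (r i) → X) (i t : ℕ) : Prop :=
  ∃ (x : Fin t → X) (e : Fin t → Fin (r (i + 1)) → MonoidAlgebra ℂ G),
    (∀ s, LevelsIn (w (i + 1)) (Set.Ici (x s)) (e s) ∧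
      LevelsIn (w i) (Set.Ioi (x s)) (e s ᵥ* C i)) ∧
    ∀ (z : X) (b : Fin (r (i + 1)) → MonoidAlgebra ℂ G), LevelsIn (w (i + 1)) (Set.Ici z) b →
      LevelsIn (w i) (Set.Ioi z) (b ᵥ* C i) →
      ∃ α : Fin t → MonoidAlgebra ℂ G, (∀ s g, (α s).coeff g ≠ 0 → g • x s = z) ∧
        ∃ y, LevelsIn (w (i + 1)) (Set.Ioi z) y ∧
          y ᵥ* C i = (b - fun j => ∑ s, α s * e s j) ᵥ* C i

end

section proofs
open Pool.Agent.K9h35.SG

variable {G : Type u} [Group G] {X : Type v} [MulAction G X] [LinearOrder X] {r : ℕ → ℕ}
  {C : Matrices G r} {w : ∀ i, Fin (r i) → X}

theorem kgen {i t : ℕ} (h : KernelsGeneratedBy C w i t) :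
    KGen (Fin t) (w (i + 1)) (w i) (C i) := by
  obtain ⟨x, e, he, h⟩ := h
  refine ⟨x, e, fun s => (he s).1, ?_⟩
  intro z b hb hb'
  obtain ⟨α, hα, y, hy, hy'⟩ := h z b hb hb'
  exact ⟨α, fun s g hg => (hα s g hg).symm, y, hy, hy'⟩

theorem noker {i : ℕ} (h : KernelsGeneratedBy C w i 0) : NoKer (w (i + 1)) (w i) (C i) := by
  obtain ⟨x, e, he, h⟩ := h
  intro z b hb hb'
  obtain ⟨α, hα, y, hy, hy'⟩ := h z b hb hb'
  refine ⟨y, hy, ?_⟩
  rw [hy']
  congr 1
  have e0 : (fun j => ∑ s : Fin 0, α s * e s j) = (0 : Fin (r (i + 1)) → MonoidAlgebra ℂ G) := by
    funext j
    exact Fin.sum_univ_zero _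
  rw [e0, sub_zero]

end proofs

/-- **The Singer conjecture and the homology of half-spaces.** Let `D` be the complex of a Poincaré
duality group structure of dimension `n` on `G`, let `G` act on the totally ordered set `X`, and let
`C` be a resolution with levels in `X`, exact up to degree `m`.

1. The `L²`-Betti numbers in degrees `0` and `n` vanish. For `k + 1 ≤ m`, `k + 1 < n`, the ones in
degrees `k + 1` and `n - (k + 1)` are at most `t` if the kernels of `H_k(C_{>x}) → H_k(C_{≥x})` are
generated by `t` elements, and if `G` acts freely on `X` or the closed half-spaces are acyclic in the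
degrees up to `k` and the kernels vanish in the degrees below `k`.
2. If `n ≤ 2 m + 2` and in all degrees `k` with `2 (k + 1) < n` these kernels vanish, and the action is
free or the closed half-spaces are acyclic in these degrees, then all `L²`-Betti numbers outside
degree `n / 2` vanish. -/
theorem result (G : Type u) [Group G] (X : Type v) [MulAction G X] [LinearOrder X]
    (hX : IsUnboundedAction G X) (n : ℕ) (hn : 0 < n) (r : ℕ → ℕ) (D : Matrices G r)
    (hD : IsDualityComplex n D) (r' : ℕ → ℕ) (C : Matrices G r') (w : ∀ i, Fin (r' i) → X) (m : ℕ)
    (hC : IsLeveledResolution C w m) :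
    (betti D 0 = 0 ∧ betti D n = 0 ∧
      ∀ k t : ℕ, k + 1 ≤ m → k + 1 < n → KernelsGeneratedBy C w k t →
        (IsFreeAction G X ∨
          (∀ i ≤ k, ClosedAcyclic C w i) ∧ ∀ i < k, KernelsGeneratedBy C w i 0) →
        betti D (k + 1) ≤ t ∧ betti D (n - (k + 1)) ≤ t) ∧
    (n ≤ 2 * m + 2 → (∀ k, 2 * (k + 1) < n → KernelsGeneratedBy C w k 0) →
      (IsFreeAction G X ∨ ∀ k, 2 * (k + 1) < n → ClosedAcyclic C w k) →
      ∀ i, 2 * i ≠ n → betti D i = 0) := by
  obtain ⟨φ, hφ⟩ := K9h35.SG.aug_res hC.comp hC.exact hC.augmentation
  have h0 := K9h35.SG.main_zero hX.mono hX.unbounded hn hD hφ (w 0)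
  have h1 : ∀ k t : ℕ, k + 1 ≤ m → k + 1 < n → KernelsGeneratedBy C w k t →
      (IsFreeAction G X ∨
        (∀ i ≤ k, ClosedAcyclic C w i) ∧ ∀ i < k, KernelsGeneratedBy C w i 0) →
      betti D (k + 1) ≤ t ∧ betti D (n - (k + 1)) ≤ t := by
    intro k t hk1 hk2 hg hf
    obtain ⟨φ', hφ'⟩ := K9h35.SG.aug_res (m := k + 1) hC.comp
      (fun i hi => hC.exact i (by omega)) hC.augmentation
    have h := K9h35.SG.main_succ hX.mono hX.unbounded hk2 hD hφ' w hC.level (kgen hg)
      (hf.imp_right fun h => ⟨fun i hi => h.1 i hi, fun i hi => noker (h.2 i hi)⟩)
    rwa [Fintype.card_fin] at h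
  refine ⟨⟨h0.1, h0.2, h1⟩, ?_⟩
  intro hnm hK hf
  have h2 : ∀ k, 2 * (k + 1) < n → betti D (k + 1) = 0 ∧ betti D (n - (k + 1)) = 0 := by
    intro k hk
    have h := h1 k 0 (by omega) (by omega) (hK k hk) (hf.imp_right fun h =>
      ⟨fun i hi => h i (by omega), fun i hi => hK i (by omega)⟩)
    rw [Nat.cast_zero] at h
    exact ⟨le_antisymm h.1 (K9h35.SG.betti_nonneg D _),
      le_antisymm h.2 (K9h35.SG.betti_nonneg D _)⟩
  intro i hi
  rcases Nat.lt_or_ge n i with h3 | h3
  · exact K9h35.SG.betti_empty (hD.length i h3)
  rcases Nat.lt_or_ge (2 * i) n with h4 | h4
  · cases i with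
    | zero => exact h0.1
    | succ i => exact (h2 i h4).1
  · rcases Nat.eq_or_lt_of_le h3 with h5 | h5
    · rw [h5]
      exact h0.2
    · have h6 := (h2 (n - i - 1) (by omega)).2
      have e : n - (n - i - 1 + 1) = i := by omega
      rwa [e] at h6

end Pool.Agent.Results.MP_984acc_gt.HalfSpaces
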